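import Pool.Agent.Work.MP_223b32_tc.Interface

/-!
# Block B0: the `L`-function is a polynomial
-/

namespace Pool.Agent.Work.TC

open Finset Polynomial

namespace B0

/-- the evaluation map is onto -/
theorem surj {F K : Type} [Field F] [Field K] [Algebra F K] [Module.Finite F K] (a : K)
    (ha : (minpoly F a).natDegree = Module.finrank F K) (m : ℕ) (hm : Module.finrank F K ≤ m)
    (y : K) : ∃ c : Fin m → F, ∑ i : Fin m, algebraMap F K (c i) * a ^ (i : ℕ) = y := by
  have hint : IsIntegral F a := IsIntegral.of_finite F a
  -- the powers span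
  have hli : LinearIndependent F (fun i : Fin (minpoly F a).natDegree => a ^ (i : ℕ)) :=
    linearIndependent_pow a
  have hspan : Submodule.span F
      (Set.range fun i : Fin (minpoly F a).natDegree => a ^ (i : ℕ)) = ⊤ := by
    apply hli.span_eq_top_of_card_eq_finrank'
    rw [Fintype.card_fin, ha]
  have hy : y ∈ Submodule.span F
      (Set.range fun i : Fin m => a ^ (i : ℕ)) := by
    have h1 : y ∈ Submodule.span F
        (Set.range fun i : Fin (minpoly F a).natDegree => a ^ (i : ℕ)) := by
      rw [hspan]; exact Submodule.mem_top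
    refine Submodule.span_mono ?_ h1
    rintro _ ⟨i, rfl⟩
    exact ⟨⟨i, by have := i.2; omega⟩, rfl⟩
  rw [Submodule.mem_span_range_iff_exists_fun] at hy
  obtain ⟨c, hc⟩ := hy
  refine ⟨c, ?_⟩
  rw [← hc]
  apply Finset.sum_congr rfl
  intro i _
  rw [Algebra.smul_def]

end B0

theorem stmt_B0 : Stmt_B0 := by
  intro F K _ _ _ _ _ _ hchar a ha m hm
  have hfin : Module.Finite F K := Module.Finite.of_finite
  have hcK : ringChar K ≠ 2 := by
    rw [← Algebra.ringChar_eq F K]
    exact hchar
  have hshift : ∀ y : K, ∑ c : Fin m → F, quadraticChar K (val a m c + y) = bb F a m := by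
    intro y
    obtain ⟨d, hd⟩ := B0.surj a ha m hm y
    unfold bb
    refine Fintype.sum_equiv (Equiv.addRight d) _ _ ?_
    intro c
    congr 1
    unfold val
    rw [← hd]
    rw [add_assoc, ← Finset.sum_add_distrib]
    congr 1
    apply Finset.sum_congr rfl
    intro i _
    simp only [Equiv.coe_addRight, Pi.add_apply, map_add]
    ring
  have h1 : (Fintype.card K : ℤ) * bb F a m = 0 := by
    have h2 : ∑ y : K, ∑ c : Fin m → F, quadraticChar K (val a m c + y) =
        (Fintype.card K : ℤ) * bb F a m := by
      rw [Finset.sum_congr rfl (fun y _ => hshift y), Finset.sum_const, Finset.card_univ,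
        nsmul_eq_mul]
    rw [← h2, Finset.sum_comm]
    apply Finset.sum_eq_zero
    intro c _
    have h3 : ∑ y : K, quadraticChar K (val a m c + y) = ∑ y : K, quadraticChar K y :=
      Fintype.sum_equiv (Equiv.addLeft (val a m c)) _ _ (fun y => rfl)
    rw [h3]
    exact quadraticChar_sum_zero hcK
  rcases mul_eq_zero.1 h1 with h | h
  · exfalso
    have : Fintype.card K ≠ 0 := Fintype.card_ne_zero
    exact this (by exact_mod_cast h)
  · exact h

end Pool.Agent.Work.TC
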