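import Pool.Agent.Work.MP_223b32_tc.Interface

/-!
# Block RHO: a place above `2` of the ring of algebraic integers
-/

namespace Pool.Agent.Work.TC

open Finset Polynomial

namespace RHO

theorem lift_field (k : Type) [Field k] (h2 : (2 : k) = 0) (hint : ∀ x : k, IsIntegral ℤ x) :
    Nonempty (k →+* AlgebraicClosure (ZMod 2)) := by
  have hc : CharP k 2 := CharTwo.of_one_ne_zero_of_two_eq_zero one_ne_zero h2
  let _ : Algebra (ZMod 2) k := ZMod.algebra _ 2
  have halg : Algebra.IsAlgebraic (ZMod 2) k := by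
    constructor
    intro x
    have hy3 : IsIntegral (ZMod 2) x := by
      obtain ⟨p, hp, hp0⟩ := hint x
      refine ⟨p.map (Int.castRingHom (ZMod 2)), hp.map _, ?_⟩
      rw [Polynomial.eval₂_map]
      rw [← hp0]
      congr 1
      exact RingHom.ext_int _ _
    exact hy3.isAlgebraic
  exact ⟨((IsAlgClosed.lift (R := ZMod 2) (S := k)
    (M := AlgebraicClosure (ZMod 2)) : _ →ₐ[ZMod 2] _) : _ →+* _)⟩

theorem not_unit : ¬ IsUnit (2 : integralClosure ℤ ℂ) := by
  intro h
  obtain ⟨u, hu⟩ := h.exists_right_inv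
  have hu' : (2 : ℂ) * (u : ℂ) = 1 := by
    have := congrArg (algebraMap (integralClosure ℤ ℂ) ℂ) hu
    rw [map_mul, map_ofNat, map_one] at this
    exact this
  have hval : (u : ℂ) = ((1 / 2 : ℚ) : ℂ) := by
    push_cast
    linear_combination hu' / 2
  have hint : IsIntegral ℤ (u : ℂ) := u.2
  have hq : IsIntegral ℤ ((1 / 2 : ℚ)) := by
    rw [hval] at hint
    have h3 : IsIntegral ℤ (algebraMap ℚ ℂ (1 / 2 : ℚ)) := hint
    exact (isIntegral_algebraMap_iff (algebraMap ℚ ℂ).injective).1 h3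
  obtain ⟨z, hz⟩ := (IsIntegrallyClosed.isIntegral_iff (R := ℤ) (K := ℚ)).1 hq
  have hz' : (z : ℚ) = 1 / 2 := by simpa using hz
  have h4 : (2 * z : ℚ) = 1 := by rw [hz']; norm_num
  have h5 : 2 * z = 1 := by exact_mod_cast h4
  omega

end RHO

theorem stmt_RHO : Stmt_RHO := by
  unfold Stmt_RHO
  have hne : Ideal.span {(2 : integralClosure ℤ ℂ)} ≠ ⊤ := by
    rw [Ne, Ideal.span_singleton_eq_top]
    exact RHO.not_unit
  obtain ⟨M, hM, hle⟩ := Ideal.exists_le_maximal _ hne
  have h2M : (2 : integralClosure ℤ ℂ) ∈ M := hle (Ideal.subset_span rfl)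
  have h20 : (2 : integralClosure ℤ ℂ ⧸ M) = 0 := by
    have := (Ideal.Quotient.eq_zero_iff_mem (I := M)).2 h2M
    rw [map_ofNat] at this
    exact this
  let _ : Field (integralClosure ℤ ℂ ⧸ M) := Ideal.Quotient.field M
  obtain ⟨f⟩ := RHO.lift_field (integralClosure ℤ ℂ ⧸ M) h20 (by
    intro x
    obtain ⟨y, rfl⟩ := Ideal.Quotient.mk_surjective x
    have hy : IsIntegral ℤ y := integralClosure.isIntegral y
    exact hy.map (Ideal.Quotient.mkₐ ℤ M))
  exact ⟨f.comp (Ideal.Quotient.mk M)⟩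

end Pool.Agent.Work.TC
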